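import Pool.Agent.Y641.RS.Alt

set_option autoImplicit false

namespace Pool.Agent.Results.MP_75988d_co.NoBoundedMoves

open Pool.Agent.Y641.RS

/-- `w` is the one-line notation of a signed permutation of size `n`: the entries are nonzero
integers of absolute value at most `n`, and no absolute value occurs twice. -/
def IsSignedPerm (n : ℕ) (w : Fin n → ℤ) : Prop :=
  (∀ i, w i ≠ 0 ∧ |w i| ≤ (n : ℤ)) ∧ ∀ i j, |w i| = |w j| → i = j

/-- The reversals of size `n`: pairs of positions `i ≤ j` (numbered from `0`). -/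
abbrev Rev (n : ℕ) : Type := {p : Fin n × Fin n // p.1 ≤ p.2}

/-- Apply a reversal: the block in positions `i, …, j` is reversed and its signs are changed. -/
def act {n : ℕ} (w : Fin n → ℤ) (r : Rev n) : Fin n → ℤ := fun k =>
  if h : r.1.1 ≤ k ∧ k ≤ r.1.2 then
    - w ⟨(r.1.1 : ℕ) + (r.1.2 : ℕ) - (k : ℕ), by
      have h1 : (r.1.1 : ℕ) ≤ (k : ℕ) := h.1
      have h2 : (k : ℕ) ≤ (r.1.2 : ℕ) := h.2
      have h3 := r.1.2.isLt
      omega⟩
  else w k

/-- The sequence `s` of reversals sorts `w` into the identity `(1, 2, …, n)`. -/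
def Sorts {n : ℕ} (w : Fin n → ℤ) (s : List (Rev n)) : Prop :=
  s.foldl act w = fun i : Fin n => ((i : ℕ) : ℤ) + 1

/-- An optimal scenario: a sorting sequence of least possible length. -/
def Optimal {n : ℕ} (w : Fin n → ℤ) (s : List (Rev n)) : Prop :=
  Sorts w s ∧ ∀ s' : List (Rev n), Sorts w s' → s.length ≤ s'.length

/-- The number of indices in which two scenarios (of the same length) differ. -/
def diffs {n : ℕ} (s s' : List (Rev n)) : ℕ :=
  (List.zip s s').countP (fun q => decide (q.1 ≠ q.2))

/-- The graph on the optimal scenarios of `w`; two different optimal scenarios are adjacent if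
they differ in at most `k` positions. -/
def G {n : ℕ} (k : ℕ) (w : Fin n → ℤ) : SimpleGraph {s : List (Rev n) // Optimal w s} :=
  SimpleGraph.fromRel (fun s s' => diffs s.1 s'.1 ≤ k)

/-- the decreasing permutation `(n, n - 1, …, 1)`, all signs positive -/
def dec (n : ℕ) : Fin n → ℤ := fun i => (n : ℤ) - (i : ℕ)

/-! the circular arrangement -/

/-- the signed permutation as a function of the oriented positions of a circle -/
def gw {n : ℕ} (w : Fin n → ℤ) (z : Ps n) : ℤ :=
  (if z.2 then -1 else 1) * (if h : z.1.val = 0 then (n : ℤ) + 1 else w ⟨z.1.val - 1, by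
    have := z.1.isLt
    omega⟩)

/-- the left end of a reversal -/
def pp {n : ℕ} (r : Rev n) : Fin (n + 1) := ⟨r.1.1.val, by
  have := r.1.1.isLt
  omega⟩

/-- the right end of a reversal -/
def qq {n : ℕ} (r : Rev n) : Fin (n + 1) := ⟨r.1.2.val + 1, by
  have := r.1.2.isLt
  omega⟩

theorem pp_lt {n : ℕ} (r : Rev n) : pp r < qq r := by
  have h1 : r.1.1.val ≤ r.1.2.val := r.2
  rw [Fin.lt_def]
  simp only [pp, qq]
  omega

theorem gw_zero {n : ℕ} (w : Fin n → ℤ) {x : Fin (n + 1)} (hx : x.val = 0) (b : Bool) :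
    gw w (x, b) = (if b then -1 else 1) * ((n : ℤ) + 1) := by
  unfold gw
  simp only
  rw [dif_pos hx]

theorem gw_pos {n : ℕ} (w : Fin n → ℤ) {x : Fin (n + 1)} (hx : x.val ≠ 0) (b : Bool)
    (k : Fin n) (hk : k.val = x.val - 1) : gw w (x, b) = (if b then -1 else 1) * w k := by
  unfold gw
  simp only
  rw [dif_neg hx]
  congr 2
  exact Fin.ext hk.symm

theorem gw_act {n : ℕ} (w : Fin n → ℤ) (r : Rev n) (z : Ps n) :
    gw (act w r) z = gw w (rf (pp r) (qq r) z) := by
  obtain ⟨x, b⟩ := z
  have hx := x.isLt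
  have hij : r.1.1.val ≤ r.1.2.val := r.2
  have hj := r.1.2.isLt
  have hp : (pp r).val = r.1.1.val := rfl
  have hq : (qq r).val = r.1.2.val + 1 := rfl
  by_cases h0 : x.val = 0
  · rw [rf_out (by omega), gw_zero _ h0, gw_zero _ h0]
  · have hk : x.val - 1 < n := by omega
    rw [gw_pos _ h0 b ⟨x.val - 1, hk⟩ rfl]
    by_cases h : (pp r).val < x.val ∧ x.val ≤ (qq r).val
    · rw [rf_in h]
      have hv := rv_val h
      have hne : (rv (pp r) (qq r) x).val ≠ 0 := by omega
      rw [gw_pos w hne (!b) ⟨r.1.1.val + r.1.2.val - (x.val - 1), by omega⟩ (by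
        simp only
        omega)]
      unfold act
      have hc : r.1.1 ≤ (⟨x.val - 1, hk⟩ : Fin n) ∧ (⟨x.val - 1, hk⟩ : Fin n) ≤ r.1.2 := by
        constructor
        · rw [Fin.le_def]
          simp only
          omega
        · rw [Fin.le_def]
          simp only
          omega
      rw [dif_pos hc]
      cases b <;> simp
    · rw [rf_out h, gw_pos w h0 b ⟨x.val - 1, hk⟩ rfl]
      congr 1
      unfold act
      rw [dif_neg]
      intro hc
      have h1 : r.1.1.val ≤ x.val - 1 := hc.1
      have h2 : x.val - 1 ≤ r.1.2.val := hc.2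
      omega

theorem gw_fold {n : ℕ} (s : List (Rev n)) : ∀ (w : Fin n → ℤ) (z : Ps n),
    gw (s.foldl act w) z = gw w ((s.map fun r => rr (pp r) (qq r)).prod z) := by
  induction s with
  | nil => intro w z; rfl
  | cons r s ih =>
    intro w z
    rw [List.foldl_cons, ih, gw_act, List.map_cons, List.prod_cons]
    rfl

/-- the identity -/
def idn (n : ℕ) : Fin n → ℤ := fun i => ((i : ℕ) : ℤ) + 1

theorem gw_dec {n : ℕ} (z : Ps n) : gw (dec n) z = gw (idn n) (e0 z) := by
  obtain ⟨x, b⟩ := z
  have hx := x.isLt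
  rw [e0_apply]
  have h1 := ng_val x
  by_cases h0 : x.val = 0
  · rw [if_pos h0] at h1
    rw [gw_zero _ h0, gw_zero _ h1]
  · rw [if_neg h0] at h1
    rw [gw_pos _ h0 b ⟨x.val - 1, by omega⟩ rfl,
      gw_pos _ (by omega) b ⟨n - x.val, by omega⟩ (by simp only; omega)]
    congr 1
    simp only [dec, idn]
    omega

theorem gw_idn {n : ℕ} (x : Fin (n + 1)) (b : Bool) :
    gw (idn n) (x, b) = (if b then -1 else 1) * (if x.val = 0 then (n : ℤ) + 1 else x.val) := by
  have hx := x.isLt
  by_cases h0 : x.val = 0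
  · rw [gw_zero _ h0, if_pos h0]
  · rw [gw_pos _ h0 b ⟨x.val - 1, by omega⟩ rfl, if_neg h0]
    congr 1
    simp only [idn]
    omega

theorem gw_inj {n : ℕ} {z z' : Ps n} (h : gw (idn n) z = gw (idn n) z') : z = z' := by
  obtain ⟨x, b⟩ := z
  obtain ⟨y, c⟩ := z'
  have hx := x.isLt
  have hy := y.isLt
  rw [gw_idn, gw_idn] at h
  have hxy : x.val = y.val ∧ b = c := by
    cases b <;> cases c <;> simp only [Bool.false_eq_true, if_false, if_true] at h <;>
      split_ifs at h <;> first
        | (refine ⟨?_, rfl⟩; omega)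
        | (exfalso; omega)
  exact Prod.ext (Fin.ext hxy.1) hxy.2

/-- the sequence of reversals of a sorting scenario -/
noncomputable def sq {n : ℕ} (s : List (Rev n)) (hs : Sorts (dec n) s) : Sq n s.length where
  P t := if h : t < s.length then pp s[t] else 0
  Q t := if h : t < s.length then qq s[t] else 0
  lt t h := by
    rw [dif_pos h, dif_pos h]
    exact pp_lt _
  E t := e0 * ((s.take t).map fun r => rr (pp r) (qq r)).prod
  E0 := by
    rw [List.take_zero, List.map_nil, List.prod_nil, mul_one]
  ES t h := by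
    rw [dif_pos h, dif_pos h, List.take_succ_eq_append_getElem h, List.map_append, List.prod_append,
      List.map_singleton, List.prod_singleton, mul_assoc]
  Ek := by
    rw [List.take_length]
    apply Equiv.ext
    intro z
    have h1 := gw_fold s (dec n) z
    have h2 : s.foldl act (dec n) = idn n := hs
    rw [h2, gw_dec] at h1
    exact (gw_inj h1).symm

theorem cls {n : ℕ} (hn : n % 2 = 1) (h3 : 3 ≤ n) {s : List (Rev n)} (hs : Sorts (dec n) s)
    (hl : s.length ≤ n) : s.length = n ∧ ∀ (t : ℕ) (h : t < s.length) (h0 : 0 < s.length),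
      s[t].1.1.val % 2 = (s[0].1.1.val + t) % 2 := by
  obtain ⟨h1, -, h2⟩ := core (sq s hs) hn h3 hl
  refine ⟨h1, fun t h h0 => ?_⟩
  have h4 := h2 t (by omega)
  have e1 : (sq s hs).P t = pp s[t] := dif_pos h
  have e2 : (sq s hs).P 0 = pp s[0] := dif_pos h0
  rw [e1, e2] at h4
  exact h4

/-! two scenarios -/

/-- the reversal of the positions `i, …, j` -/
def mk (n : ℕ) (h0 : 0 < n) (i j : ℕ) : Rev n :=
  if h : i ≤ j ∧ j < n then
    ⟨(⟨i, lt_of_le_of_lt h.1 h.2⟩, ⟨j, h.2⟩), h.1⟩
  else ⟨(⟨0, h0⟩, ⟨0, h0⟩), le_rfl⟩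

theorem act_mk {n : ℕ} (h0 : 0 < n) {i j : ℕ} (hij : i ≤ j) (hj : j < n) (f : ℕ → ℤ) :
    act (fun k : Fin n => f k.val) (mk n h0 i j) =
      fun k : Fin n => if i ≤ k.val ∧ k.val ≤ j then - f (i + j - k.val) else f k.val := by
  funext k
  have h1 : mk n h0 i j = ⟨(⟨i, lt_of_le_of_lt hij hj⟩, ⟨j, hj⟩), hij⟩ := dif_pos ⟨hij, hj⟩
  rw [h1]
  unfold act
  by_cases h : i ≤ k.val ∧ k.val ≤ j
  · rw [if_pos h, dif_pos (show (⟨i, lt_of_le_of_lt hij hj⟩ : Fin n) ≤ k ∧ k ≤ ⟨j, hj⟩ from h)]
  · rw [if_neg h, dif_neg (show ¬ ((⟨i, lt_of_le_of_lt hij hj⟩ : Fin n) ≤ k ∧ k ≤ ⟨j, hj⟩) from h)]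

/-- the states of the first scenario -/
def stA (n m : ℕ) (x : ℕ) : ℤ :=
  if x < m then -((n : ℤ) - 1 - x) else if x = m then (-1) ^ m * n else (n : ℤ) - x

/-- the states of the second scenario -/
def stB (n m : ℕ) (x : ℕ) : ℤ :=
  if x = 0 then n else if x < m then -((n : ℤ) - 1 - x)
    else if x = m then (-1) ^ (m + 1) * ((n : ℤ) - 1) else (n : ℤ) - x

/-- the first scenario -/
def scA (n : ℕ) (h0 : 0 < n) : List (Rev n) :=
  (List.range (n - 1)).map (fun i => mk n h0 i (i + 1)) ++ [mk n h0 0 (n - 2)]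

/-- the second scenario -/
def scB (n : ℕ) (h0 : 0 < n) : List (Rev n) :=
  (List.range (n - 2)).map (fun i => mk n h0 (i + 1) (i + 2)) ++
    [mk n h0 0 (n - 2), mk n h0 (n - 2) (n - 1)]

theorem preA {n : ℕ} (h0 : 0 < n) (m : ℕ) (hm : m + 1 ≤ n) :
    ((List.range m).map fun i => mk n h0 i (i + 1)).foldl act (dec n)
      = fun k : Fin n => stA n m k.val := by
  induction m with
  | zero =>
    funext k
    simp only [List.range_zero, List.map_nil, List.foldl_nil, dec, stA]
    rw [if_neg (by omega)]
    split_ifs with h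
    · rw [h]
      simp
    · rfl
  | succ m ih =>
    rw [List.range_succ, List.map_append, List.foldl_append, ih (by omega), List.map_singleton,
      List.foldl_cons, List.foldl_nil, act_mk h0 (by omega) (by omega)]
    funext k
    simp only [stA]
    have hcases : k.val < m ∨ k.val = m ∨ k.val = m + 1 ∨ m + 1 < k.val := by omega
    rcases hcases with h | h | h | h
    · rw [if_neg (by omega), if_pos h, if_pos (by omega)]
    · have e : m + (m + 1) - k.val = m + 1 := by omega
      rw [if_pos (by omega), e, if_neg (by omega), if_neg (by omega), if_pos (by omega), h]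
      push_cast
      ring
    · rw [if_pos (by omega), if_neg (by omega), if_pos (by omega), if_neg (by omega),
        if_pos h, pow_succ]
      ring
    · rw [if_neg (by omega), if_neg (by omega), if_neg (by omega), if_neg (by omega),
        if_neg (by omega)]

theorem preB {n : ℕ} (h0 : 0 < n) (m : ℕ) (hm : m + 2 ≤ n) :
    ((List.range m).map fun i => mk n h0 (i + 1) (i + 2)).foldl act (dec n)
      = fun k : Fin n => stB n (m + 1) k.val := by
  induction m with
  | zero =>
    funext k
    simp only [List.range_zero, List.map_nil, List.foldl_nil, dec, stB]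
    have hcases : k.val = 0 ∨ k.val = 1 ∨ 1 < k.val := by omega
    rcases hcases with h | h | h
    · rw [if_pos h, h]
      simp
    · rw [if_neg (by omega), if_neg (by omega), if_pos (by omega), h]
      simp
    · rw [if_neg (by omega), if_neg (by omega), if_neg (by omega)]
  | succ m ih =>
    rw [List.range_succ, List.map_append, List.foldl_append, ih (by omega), List.map_singleton,
      List.foldl_cons, List.foldl_nil, act_mk h0 (by omega) (by omega)]
    funext k
    simp only [stB]
    have hcases : k.val = 0 ∨ (0 < k.val ∧ k.val < m + 1) ∨ k.val = m + 1 ∨ k.val = m + 2 ∨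
      m + 2 < k.val := by omega
    rcases hcases with h | ⟨h', h⟩ | h | h | h
    · rw [if_neg (by omega), if_pos h, if_pos h]
    · rw [if_neg (by omega), if_neg (by omega), if_pos h, if_neg (by omega), if_pos (by omega)]
    · rw [if_pos (by omega), if_neg (by omega), if_neg (by omega), if_neg (by omega),
        if_neg (by omega), if_pos (by omega), h]
      push_cast [show m + 1 + (m + 2) - (m + 1) = m + 2 by omega]
      ring
    · rw [if_pos (by omega), if_neg (by omega), if_neg (by omega), if_pos (by omega),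
        if_neg (by omega), if_neg (by omega), if_pos h, pow_succ (-1 : ℤ) (m + 1 + 1)]
      ring
    · rw [if_neg (by omega), if_neg (by omega), if_neg (by omega), if_neg (by omega),
        if_neg (by omega), if_neg (by omega), if_neg (by omega)]

theorem sortsA {n : ℕ} (hn : n % 2 = 1) (h3 : 3 ≤ n) (h0 : 0 < n) : Sorts (dec n) (scA n h0) := by
  unfold Sorts scA
  rw [List.foldl_append, preA h0 (n - 1) (by omega), List.foldl_cons, List.foldl_nil,
    act_mk h0 (by omega) (by omega)]
  funext k
  have hk := k.isLt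
  simp only [stA]
  by_cases h : k.val ≤ n - 2
  · rw [if_pos (by omega), if_pos (by omega)]
    omega
  · have he : Even (n - 1) := Nat.even_iff.mpr (by omega)
    rw [if_neg (by omega), if_neg (by omega), if_pos (by omega), he.neg_one_pow]
    omega

theorem sortsB {n : ℕ} (hn : n % 2 = 1) (h3 : 3 ≤ n) (h0 : 0 < n) : Sorts (dec n) (scB n h0) := by
  unfold Sorts scB
  rw [List.foldl_append, preB h0 (n - 2) (by omega), List.foldl_cons,
    act_mk h0 (by omega) (by omega), List.foldl_cons, List.foldl_nil,
    act_mk (f := fun k => if 0 ≤ k ∧ k ≤ n - 2 then - stB n (n - 2 + 1) (0 + (n - 2) - k)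
      else stB n (n - 2 + 1) k) h0 (by omega) (by omega)]
  funext k
  have hk := k.isLt
  simp only [stB]
  have ho : Odd (n - 2 + 1 + 1) := Nat.odd_iff.mpr (by omega)
  have hcases : k.val < n - 2 ∨ k.val = n - 2 ∨ k.val = n - 1 := by omega
  rcases hcases with h | h | h
  · rw [if_neg (by omega), if_pos (by omega), if_neg (by omega), if_pos (by omega)]
    omega
  · rw [if_pos (by omega), if_neg (by omega), if_neg (by omega), if_neg (by omega),
      if_pos (by omega), ho.neg_one_pow]
    omega
  · rw [if_pos (by omega), if_pos (by omega), if_pos (by omega)]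
    omega

theorem lenA {n : ℕ} (h3 : 3 ≤ n) (h0 : 0 < n) : (scA n h0).length = n := by
  unfold scA
  rw [List.length_append, List.length_map, List.length_range, List.length_singleton]
  omega

theorem lenB {n : ℕ} (h3 : 3 ≤ n) (h0 : 0 < n) : (scB n h0).length = n := by
  unfold scB
  rw [List.length_append, List.length_map, List.length_range]
  simp only [List.length_cons, List.length_nil]
  omega

theorem optimal_of {n : ℕ} (hn : n % 2 = 1) (h3 : 3 ≤ n) {s : List (Rev n)}
    (hs : Sorts (dec n) s) (hl : s.length = n) : Optimal (dec n) s := by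
  refine ⟨hs, fun s' hs' => ?_⟩
  by_contra hlt
  have := (cls hn h3 hs' (by omega)).1
  omega

theorem optimal_len {n : ℕ} (hn : n % 2 = 1) (h3 : 3 ≤ n) {s : List (Rev n)}
    (hs : Optimal (dec n) s) : s.length = n := by
  have h0 : 0 < n := by omega
  have h1 := hs.2 _ (sortsA hn h3 h0)
  rw [lenA h3 h0] at h1
  exact (cls hn h3 hs.1 h1).1

/-- the parity of the left end of the first reversal -/
def fp {n : ℕ} (s : List (Rev n)) : ℕ := if h : 0 < s.length then s[0].1.1.val % 2 else 0

theorem fp_eq {n : ℕ} (hn : n % 2 = 1) (h3 : 3 ≤ n) {s s' : List (Rev n)}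
    (hs : Optimal (dec n) s) (hs' : Optimal (dec n) s') {k : ℕ} (hk : k < n)
    (h : diffs s s' ≤ k) : fp s = fp s' := by
  have l1 := optimal_len hn h3 hs
  have l2 := optimal_len hn h3 hs'
  obtain ⟨t, ht, ht', he⟩ : ∃ (t : ℕ) (h1 : t < s.length) (h2 : t < s'.length), s[t] = s'[t] := by
    by_contra hcon
    push Not at hcon
    have h1 : (List.zip s s').countP (fun q => decide (q.1 ≠ q.2)) = (List.zip s s').length := by
      rw [List.countP_eq_length]
      intro q hq
      obtain ⟨i, hi, rfl⟩ := List.mem_iff_getElem.mp hq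
      rw [List.length_zip] at hi
      rw [List.getElem_zip, decide_eq_true_eq]
      exact hcon i (by omega) (by omega)
    unfold diffs at h
    rw [h1, List.length_zip] at h
    omega
  have e1 := (cls hn h3 hs.1 l1.le).2 t ht (by omega)
  have e2 := (cls hn h3 hs'.1 l2.le).2 t ht' (by omega)
  rw [he, e2] at e1
  unfold fp
  rw [dif_pos (by omega), dif_pos (by omega)]
  omega

theorem fp_reach {n : ℕ} (hn : n % 2 = 1) (h3 : 3 ≤ n) {k : ℕ} (hk : k < n)
    {s s' : {s : List (Rev n) // Optimal (dec n) s}} (h : (G k (dec n)).Reachable s s') :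
    fp s.1 = fp s'.1 := by
  obtain ⟨p⟩ := h
  induction p with
  | nil => rfl
  | @cons u v w hadj _ ih =>
    rw [← ih]
    unfold G at hadj
    rw [SimpleGraph.fromRel_adj] at hadj
    rcases hadj.2 with h1 | h1
    · exact fp_eq hn h3 u.2 v.2 hk h1
    · exact (fp_eq hn h3 v.2 u.2 hk h1).symm

/-- For every odd `n ≥ 3`, the permutation `(n, n - 1, …, 1)` has reversal distance `n`, and there
are two optimal scenarios for it which are not joined by a chain of optimal scenarios in which
consecutive members differ in at most `n - 1` positions (that is, agree in some position). -/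
theorem result : ∀ n : ℕ, Odd n → 3 ≤ n → IsSignedPerm n (dec n) ∧
    (∀ s : List (Rev n), Optimal (dec n) s → s.length = n) ∧
    ∃ s s' : {s : List (Rev n) // Optimal (dec n) s}, ∀ k : ℕ, k < n →
      ¬ (G k (dec n)).Reachable s s' := by
  intro n hodd h3
  have hn : n % 2 = 1 := Nat.odd_iff.mp hodd
  have h0 : 0 < n := by omega
  refine ⟨⟨fun i => ?_, fun i j hij => ?_⟩, fun s hs => optimal_len hn h3 hs,
    ⟨scA n h0, optimal_of hn h3 (sortsA hn h3 h0) (lenA h3 h0)⟩,
    ⟨scB n h0, optimal_of hn h3 (sortsB hn h3 h0) (lenB h3 h0)⟩, fun k hk h => ?_⟩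
  · have := i.isLt
    simp only [dec]
    refine ⟨by omega, ?_⟩
    rw [abs_le]
    constructor <;> omega
  · have h1 := i.isLt
    have h2 := j.isLt
    simp only [dec] at hij
    rw [abs_of_nonneg (by omega), abs_of_nonneg (by omega)] at hij
    apply Fin.ext
    omega
  · have h1 := fp_reach hn h3 hk h
    have hA : fp (scA n h0) = 0 := by
      unfold fp
      rw [dif_pos (by rw [lenA h3 h0]; exact h0)]
      have h4 : (scA n h0)[0]'(by rw [lenA h3 h0]; exact h0) = mk n h0 0 1 := by
        unfold scA
        rw [List.getElem_append_left (by simp; omega), List.getElem_map, List.getElem_range]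
      have h5 : mk n h0 0 1 = ⟨(⟨0, by omega⟩, ⟨1, by omega⟩), by simp⟩ := dif_pos ⟨by omega, by omega⟩
      rw [h4, h5]
      rfl
    have hB : fp (scB n h0) = 1 := by
      unfold fp
      rw [dif_pos (by rw [lenB h3 h0]; exact h0)]
      have h4 : (scB n h0)[0]'(by rw [lenB h3 h0]; exact h0) = mk n h0 1 2 := by
        unfold scB
        rw [List.getElem_append_left (by simp; omega), List.getElem_map, List.getElem_range]
      have h5 : mk n h0 1 2 = ⟨(⟨1, by omega⟩, ⟨2, by omega⟩), by simp⟩ := dif_pos ⟨by omega, by omega⟩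
      rw [h4, h5]
      rfl
    rw [hA, hB] at h1
    exact absurd h1 (by norm_num)

end Pool.Agent.Results.MP_75988d_co.NoBoundedMoves
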